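import Pool.Agent.N489.RW.FinT
import Pool.Agent.N489.RW.Sn
import Pool.Agent.N489.RW.MF
import Pool.Agent.N489.RW.BF
import Pool.Agent.N489.RW.FLOW
import Pool.Agent.N489.RW.UNF
import Pool.Agent.N489.RW.CGS
import Pool.Agent.N489.RW.PSI
import Pool.Agent.N489.RW.SEL
import Pool.Agent.N489.RW.LFT
import Pool.Agent.N489.RW.COR
import Pool.Agent.N489.RW.PHI
import Pool.Agent.N489.RW.SIM
import Pool.Agent.N489.RW.EE
import Pool.Agent.N489.RW.STAR2
import Pool.Agent.N489.RW.NCP
import Pool.Agent.N489.RW.DIM
import Pool.Agent.N489.RW.DBL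
import Pool.Agent.N489.RW.UNT1
import Pool.Agent.N489.RW.UNT
import Pool.Agent.N489.RW.NT
import Pool.Agent.N489.RW.SPT
import Pool.Agent.Y467.GE.MG
import Pool.Agent.Y911.GE.SET

/-!
# Short periodic geodesics of metrics with a circle symmetry

`X` is a compact metric space in which any two points are joined by a minimal geodesic and minimal
geodesics between points at distance less than `r` are unique (every closed Riemannian manifold).
A group `G` acts on `X` by isometries and fixes the points of the closed set `F`; near `F` it acts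
transitively on the normal spheres (`NT`): there are `w : V → ℝ^(k+1)`, continuous on the
neighbourhood `V` of radius `r` of `F`, vanishing exactly on `F`, such that the directions of
`w` on the orbit of every point outside `F` fill up the unit sphere `S^k`, with a continuous section,
and an element `σ` of `G` acting as an involution with `w (σ x) = - w x`. (Example: a circle acting
by isometries on a closed manifold, `F` the union of some or all components of codimension `2` of
its fixed point set, `σ = -1`; or the unit quaternions and codimension `4`.) Let `p ∈ F` and let `D`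
be a bound of the distances from `p`.

1. Let `K` be a compact metric space of covering dimension at most `q`, `q ≥ 1`, and `f : K → X`
   continuous. Then `X` has a periodic geodesic of length at most `4 q D`, or there is a continuous
   map `g : K → F` whose restriction to `f⁻¹(F)` is homotopic in `F` to `f` (`Defo`).
2. Every such metric on the sphere `S^n`, `n = k + 2 ≥ 2`, which is invariant under the rotations
   in the plane of the last two coordinates has a periodic geodesic of length at most
   `4 (n - 1) diam` (on `S^3` : `8 diam`).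
-/

set_option autoImplicit false

open Set Topology

namespace Pool.Agent.Results.MP_3eff7f_gt.CircleSymmetric

open Pool.Agent.Y489.GE Pool.Agent.R203.IF Pool.Agent.N489.RW

theorem general (X G : Type) [MetricSpace X] [CompactSpace X] [Group G] [MulAction G X] (k : ℕ)
    (F : Set X) (σ : G) (w : X → Eu k) (V : Set X) (p : X) (r D : ℝ) (q : ℕ) (hr : 0 < r)
    (hX : GeodSpace X) (hU : UniqGeod X r) (hT : NT X G k F σ w V r) (hp : p ∈ F)
    (hD : ∀ y, dist p y ≤ D) (hq : 1 ≤ q) (K : Type) [MetricSpace K] [CompactSpace K]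
    (hK : CovDim K q) (f : K → X) (hf : Continuous f) (hdefo : ¬ Defo F f) :
    ClosedGeod X (4 * q * D) := by
  obtain ⟨m, hm⟩ := Pool.Agent.Y467.GE.t_MG X r hr hX hU
  have hr2 : 0 < r / 2 := by linarith
  have hr2' : r / 2 < r := by linarith
  have hTS : TS X G F σ (r / 2) := t_NT t_NC X G k F σ w V r (r / 2) m hT hX hU hm hr2 hr2'
  have hU2 : UniqGeod X (r / 2) := fun x y z w h => hU x y z w (h.trans hr2')
  refine mainT t_MF t_DBL (t_UNT t_UNT1) ?_ X G F σ p (r / 2) D q hr2 hX hU2 hTS hp hD hq K hK f
    hf hdefo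
  intro X _ _ ρ U p r D q hr hX hU hM hp hD hq K _ _ hK f hf hfU hdefo
  exact main2 Pool.Agent.Y467.GE.t_MG Pool.Agent.Y911.GE.t_SET t_MF t_BF t_FLOW t_UNF t_CGS t_PSI
    (t_PHI t_SEL t_LFT t_COR) (t_EE t_SIM) t_STAR2 X ρ U p r D q hr hX hU hM hp hD hq K hK f hf
    hfU hdefo

/-- the relative form -/
def General : Prop := ∀ (X G : Type) [MetricSpace X] [CompactSpace X] [Group G] [MulAction G X]
  (k : ℕ) (F : Set X) (σ : G) (w : X → Eu k) (V : Set X) (p : X) (r D : ℝ), 0 < r →
  GeodSpace X → UniqGeod X r → NT X G k F σ w V r → p ∈ F → (∀ y, dist p y ≤ D) →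
  ∀ (q : ℕ) (K : Type) [MetricSpace K] [CompactSpace K] (f : K → X), 1 ≤ q → CovDim K q →
  Continuous f → ClosedGeod X (4 * q * D) ∨ Defo F f

/-- the circle acts on `X` by rotations of the last two coordinates of the unit sphere of
`ℝ^(k+3)` -/
structure Rotn {X : Type} [MetricSpace X] [MulAction Circle X] {k : ℕ} (e : X ≃ₜ Sn (k + 2)) :
    Prop where
  init : ∀ (u : Circle) (x : X) (i : Fin (k + 1)),
    (e (u • x)).1 i.castSucc.castSucc = (e x).1 i.castSucc.castSucc
  rot : ∀ (u : Circle) (x : X),
    ((e (u • x)).1 (Fin.last (k + 1)).castSucc : ℂ) +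
        ((e (u • x)).1 (Fin.last (k + 2)) : ℂ) * Complex.I =
      (u : ℂ) * (((e x).1 (Fin.last (k + 1)).castSucc : ℂ) +
        ((e x).1 (Fin.last (k + 2)) : ℂ) * Complex.I)

/-- spheres of dimension `k + 2` -/
def Spheres : Prop := ∀ (X : Type) [MetricSpace X] [CompactSpace X] [MulAction Circle X] (k : ℕ)
  (e : X ≃ₜ Sn (k + 2)) (r : ℝ), Rotn e →
  (∀ (u : Circle) (x y : X), dist (u • x) (u • y) = dist x y) →
  0 < r → GeodSpace X → UniqGeod X r →
  ClosedGeod X (4 * (k + 1 : ℕ) * Metric.diam (univ : Set X))

theorem result : General ∧ Spheres := by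
  refine ⟨?_, ?_⟩
  · intro X G _ _ _ _ k F σ w V p r D hr hX hU hT hp hD q K _ _ f hq hK hf
    by_contra h
    push Not at h
    exact h.1 (general X G k F σ w V p r D q hr hX hU hT hp hD hq K hK f hf h.2)
  · intro X _ _ _ k e₀ r hR hiso hr hX hU
    obtain ⟨e, he⟩ : ∃ e : X ≃ₜ ↥(Metric.sphere (0 : Eu (k + 2)) 1),
        ∀ x i, (e x).1 i = (e₀ x).1 i := ⟨e₀.trans (hSn (k + 2)), fun x i => rfl⟩
    have hS : SphC X k e := ⟨fun u x i => by rw [he, he, hR.init], fun u x => by
      rw [he, he, he, he, hR.rot]⟩
    obtain ⟨⟨p, hp⟩, hw, K, hKm, f, hKc, hK, hf, hdefo⟩ := SPT.t_SPT t_NC DIM.t_DIM X k e hS hiso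
    obtain ⟨w, hw⟩ := hw r
    have hbd : Bornology.IsBounded (univ : Set X) := isCompact_univ.isBounded
    exact general X Circle 1 (FxC e) (-1) w univ p r _ (k + 1) hr hX hU hw hp
      (fun y => Metric.dist_le_diam_of_mem hbd (mem_univ p) (mem_univ y)) (by omega) K hK f hf
      hdefo

end Pool.Agent.Results.MP_3eff7f_gt.CircleSymmetric
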