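import Pool.Agent.N489.RW.Cor
import Pool.Agent.N489.RW.Sn
import Pool.Agent.N489.RW.MF
import Pool.Agent.N489.RW.BF
import Pool.Agent.N489.RW.FLOW
import Pool.Agent.N489.RW.UNF
import Pool.Agent.N489.RW.CGS
import Pool.Agent.N489.RW.PSI
import Pool.Agent.N489.RW.SEL
import Pool.Agent.N489.RW.LFT
import Pool.Agent.N489.RW.COR
import Pool.Agent.N489.RW.PHI
import Pool.Agent.N489.RW.SIM
import Pool.Agent.N489.RW.EE
import Pool.Agent.N489.RW.STAR2
import Pool.Agent.N489.RW.NCP
import Pool.Agent.N489.RW.DIM
import Pool.Agent.Y467.GE.MG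
import Pool.Agent.Y911.GE.SET

/-!
# Short periodic geodesics of metrics with a reflection

`X` is a compact metric space in which any two points are joined by a minimal geodesic and minimal
geodesics between points at distance less than `r` are unique (every closed Riemannian manifold).
Let `ρ` be an isometric involution of `X` whose fixed point set `F` separates: there is a closed set
`U` with `U ∪ ρ U = X` and `U ∩ ρ U = F` (`Mirror`; on a closed simply connected manifold every
isometric involution with a fixed hypersurface is of this kind). Nothing is assumed about `F`. Let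
`p ∈ F` and let `D` be a bound of the distances from `p` (for example the diameter of `X`).
`SymGeod X ρ L`: there is a periodic geodesic of length at most `L` with `γ (-t) = ρ (γ t)`; it
consists of a chord from `F` to `F`, orthogonal to `F` at its end points, and of its mirror image.

1. Let `K` be a compact metric space of covering dimension at most `q`, `q ≥ 1`, and `f : K → U`
   continuous. If there is no periodic geodesic as above of length at most `4 q D`, then there is a
   continuous map `g : K → F` whose restriction to `A = f⁻¹(F)` is homotopic in `F` to `f` (`Defo`).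
2. If `U` has covering dimension at most `n` and `F` is not a retract of `U` up to homotopy (this
   holds for all closed `n`-manifolds `X`, since `[F] = 0` in the homology of `U`), there is a
   periodic geodesic of length at most `4 n D`.
3. Every such metric on the sphere `S^n`, `n = k + 1`, which is invariant under the reflection in
   the equator has a periodic geodesic of length at most `4 n diam`.
-/

set_option autoImplicit false

open Set Topology

namespace Pool.Agent.Results.MP_3eff7f_gt.ReflectionSymmetric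

open Pool.Agent.Y489.GE Pool.Agent.R203.IF Pool.Agent.N489.RW

theorem general (X : Type) [MetricSpace X] [CompactSpace X] (ρ : X → X) (U : Set X) (p : X)
    (r D : ℝ) (q : ℕ) (hr : 0 < r) (hX : GeodSpace X) (hU : UniqGeod X r) (hM : Mirror X ρ U)
    (hp : ρ p = p) (hD : ∀ y, dist p y ≤ D) (hq : 1 ≤ q) (K : Type) [MetricSpace K]
    [CompactSpace K] (hK : CovDim K q) (f : K → X) (hf : Continuous f) (hfU : ∀ k, f k ∈ U)
    (hdefo : ¬ Defo {x | ρ x = x} f) : SymGeod X ρ (4 * q * D) :=
  main2 Pool.Agent.Y467.GE.t_MG Pool.Agent.Y911.GE.t_SET t_MF t_BF t_FLOW t_UNF t_CGS t_PSI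
    (t_PHI t_SEL t_LFT t_COR) (t_EE t_SIM) t_STAR2 X ρ U p r D q hr hX hU hM hp hD hq K hK f hf
    hfU hdefo

/-- the relative form -/
def General : Prop := ∀ (X : Type) [MetricSpace X] [CompactSpace X] (ρ : X → X) (U : Set X)
  (p : X) (r D : ℝ), 0 < r → GeodSpace X → UniqGeod X r → Mirror X ρ U → ρ p = p →
  (∀ y, dist p y ≤ D) → ∀ (q : ℕ) (K : Type) [MetricSpace K] [CompactSpace K] (f : K → X),
  1 ≤ q → CovDim K q → Continuous f → (∀ k, f k ∈ U) →
  SymGeod X ρ (4 * q * D) ∨ Defo {x | ρ x = x} f

/-- the case of the inclusion of `U` -/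
def Whole : Prop := ∀ (X : Type) [MetricSpace X] [CompactSpace X] (ρ : X → X) (U : Set X)
  (p : X) (r D : ℝ), 0 < r → GeodSpace X → UniqGeod X r → Mirror X ρ U → ρ p = p →
  (∀ y, dist p y ≤ D) → ∀ n : ℕ, 1 ≤ n → CovDim ↥U n → ¬ Ret ρ U → SymGeod X ρ (4 * n * D)

/-- `ρ` corresponds to the reflection of the unit sphere of `ℝ^(k+2)` in the last coordinate -/
structure Refl {X : Type} [MetricSpace X] {k : ℕ} (e : X ≃ₜ Sn (k + 1)) (ρ : X → X) : Prop where
  init : ∀ (x : X) (i : Fin (k + 1)), (e (ρ x)).1 i.castSucc = (e x).1 i.castSucc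
  last : ∀ x : X, (e (ρ x)).1 (Fin.last (k + 1)) = - (e x).1 (Fin.last (k + 1))

/-- spheres of dimension `k + 1` -/
def Spheres : Prop := ∀ (X : Type) [MetricSpace X] [CompactSpace X] (k : ℕ)
  (e : X ≃ₜ Sn (k + 1)) (ρ : X → X) (r : ℝ), Refl e ρ → Isometry ρ →
  0 < r → GeodSpace X → UniqGeod X r →
  SymGeod X ρ (4 * (k + 1 : ℕ) * Metric.diam (univ : Set X))

theorem result : General ∧ Whole ∧ Spheres := by
  refine ⟨?_, ?_, ?_⟩
  · intro X _ _ ρ U p r D hr hX hU hM hp hD q K _ _ f hq hK hf hfU
    by_contra h
    push Not at h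
    exact h.1 (general X ρ U p r D q hr hX hU hM hp hD hq K hK f hf hfU h.2)
  · intro X _ _ ρ U p r D hr hX hU hM hp hD n hn hdim hret
    have : CompactSpace ↥U := isCompact_iff_compactSpace.1 hM.closed.isCompact
    exact general X ρ U p r D n hr hX hU hM hp hD hn ↥U hdim (fun x => x.1)
      continuous_subtype_val (fun x => x.2) fun h => hret (ret_of_defo hM h)
  · intro X _ _ k e₀ ρ r hR hρ hr hX hU
    obtain ⟨e, he⟩ : ∃ e : X ≃ₜ ↥(Metric.sphere (0 : Eu (k + 1)) 1),
        ∀ x i, (e x).1 i = (e₀ x).1 i := ⟨e₀.trans (hSn (k + 1)), fun x i => rfl⟩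
    have hS : Sph X k ρ e := ⟨fun x i => by rw [he, he, hR.init], fun x => by
      rw [he, he, hR.last]⟩
    obtain ⟨hM, hdim, hret⟩ := DIM.t_SPH t_NC DIM.t_DIM X k ρ e hS hρ
    obtain ⟨p, hp⟩ := sph_fix hS
    have hbd : Bornology.IsBounded (univ : Set X) := isCompact_univ.isBounded
    have : CompactSpace ↥(Up e) := isCompact_iff_compactSpace.1 hM.closed.isCompact
    exact general X ρ (Up e) p r _ (k + 1) hr hX hU hM hp
      (fun y => Metric.dist_le_diam_of_mem hbd (mem_univ p) (mem_univ y)) (by omega) ↥(Up e) hdim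
      (fun x => x.1) continuous_subtype_val (fun x => x.2) fun h => hret (ret_of_defo hM h)

end Pool.Agent.Results.MP_3eff7f_gt.ReflectionSymmetric
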